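import Pool.Agent.Lib.MP_39e402_gt.GFin
import Pool.Agent.Lib.MP_39e402_gt.R.ZHole

/-!
# MP_39e402: the set `S_top` of a noncollapsed Ricci limit space need not be locally finite in dimension 4

The space `X` is the completion of `(UInf, gInf)`, a warped product type metric with infinitely many points `P_i`
(tangent cone `C(RP³)`) converging to a point; `X` is the limit of complete Riemannian 4-manifolds with
`Ric ≥ -3`, in which the points `P_i` are replaced by Eguchi-Hanson caps.
-/

open Set Filter Topology MeasureTheory
open scoped ENNReal NNReal ContDiff

noncomputable section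

namespace Pool.Agent.Results.MP_39e402_gt.Disproof

open Pool.Agent.MP39e402

theorem result : ∃ (X : Type) (_ : MetricSpace X) (x : X),
    IsNoncollapsedRicciLimit 4 X x ∧ ∃ B : Set X, Bornology.IsBounded B ∧ hausM 0 (STop 4 X ∩ B) = ⊤ :=
  disproof_explicit ricOneHole

end Pool.Agent.Results.MP_39e402_gt.Disproof
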